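import Mathlib
import Pool.Agent.H75.TDDefs

/-! A tridiagonal pair with two non-proportional invariant symmetric bilinear forms. -/

set_option autoImplicit false

namespace Pool.Agent.Results.MP_8ac8bf_al.NotUnique

open Pool.Agent.H75.TD Module.End

/-- `f` is a symmetric form for which `A` and `B` are self-adjoint. -/
def IsInv {V : Type} (A B : V → V) (f : V → V → ℝ) : Prop :=
  (∀ u v, f u v = f v u) ∧ (∀ u v, f (A u) v = f u (A v)) ∧ ∀ u v, f (B u) v = f u (B v)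

def A : Module.End ℝ (Fin 4 → ℝ) := Matrix.toLin' !![1, 0, 0, 0; 0, 1, 0, 0; 0, 0, 0, 0; 0, 0, 0, 0]

def B : Module.End ℝ (Fin 4 → ℝ) :=
  Matrix.toLin' !![0, -1, 1, -1; 1, 0, 1, 1; 1, 0, 1, 1; 0, 1, -1, 1]

theorem A_ap (x : Fin 4 → ℝ) : A x = ![x 0, x 1, 0, 0] := by
  ext i; fin_cases i <;> simp [A, Matrix.mulVec, dotProduct, Fin.sum_univ_four]

theorem B_ap (x : Fin 4 → ℝ) :
    B x = ![-x 1 + x 2 - x 3, x 0 + x 2 + x 3, x 0 + x 2 + x 3, x 1 - x 2 + x 3] := by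
  ext i; fin_cases i <;> simp [B, Matrix.mulVec, dotProduct, Fin.sum_univ_four] <;> ring

theorem tri {V : Type} [AddCommGroup V] [Module ℝ V] (E F : Module.End ℝ V)
    (h : ∀ x, E (E x) = E x) (u v : V) (hu : E u ≠ 0) (hv : v - E v ≠ 0) :
    Tri E F ![1, 0] := by
  have h1 : ∀ x, E x ∈ E.eigenspace 1 := fun x => mem_eigenspace_iff.2 (by simp [h])
  have h0 : ∀ x, x - E x ∈ E.eigenspace 0 := fun x => mem_eigenspace_iff.2 (by simp [h])
  refine ⟨fun i j hij => ?_, fun i => ?_, eq_top_iff.2 fun x _ => ?_, fun i x _ => ?_⟩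
  · fin_cases i <;> fin_cases j <;> simp_all
  · fin_cases i
    · exact (Submodule.ne_bot_iff _).2 ⟨_, h1 u, hu⟩
    · exact (Submodule.ne_bot_iff _).2 ⟨_, h0 v, hv⟩
  · rw [← add_sub_cancel (E x) x]
    exact Submodule.add_mem _ (Submodule.mem_iSup_of_mem 0 (h1 x))
      (Submodule.mem_iSup_of_mem 1 (h0 x))
  · rw [← add_sub_cancel (E x) x]
    exact mem_sup2 (fun j => E.eigenspace (![1, 0] j)) 0 1 (by have := i.2; constructor <;> simp; omega)
      (by have := i.2; constructor <;> simp) (h1 x) (h0 x)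

theorem irr (W : Submodule ℝ (Fin 4 → ℝ)) (hA : W.map A ≤ W) (hB : W.map B ≤ W) :
    W = ⊥ ∨ W = ⊤ := by
  have a : ∀ x ∈ W, A x ∈ W := fun x hx => hA ⟨x, hx, rfl⟩
  have b : ∀ x ∈ W, B x ∈ W := fun x hx => hB ⟨x, hx, rfl⟩
  have key : ∀ p q : ℝ, (![p, q, 0, 0] : Fin 4 → ℝ) ∈ W → p ^ 2 + q ^ 2 ≠ 0 → W = ⊤ := by
    intro p q h hn
    have h1 := a _ (b _ h)
    have h2 := b _ h
    have h3 := b _ h1
    refine eq_top_iff.2 fun x _ => ?_
    have := W.add_mem (W.add_mem (W.smul_mem ((p * (x 0 + x 3) + q * (x 1 - x 2)) / (p ^ 2 + q ^ 2)) h)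
      (W.smul_mem ((p * (x 1 - x 2) - q * (x 0 + x 3)) / (p ^ 2 + q ^ 2)) h1))
      (W.add_mem (W.smul_mem ((p * x 2 + q * x 3) / (p ^ 2 + q ^ 2)) h2)
      (W.smul_mem ((p * x 3 - q * x 2) / (p ^ 2 + q ^ 2)) h3))
    convert this using 1
    ext i; fin_cases i <;> simp [A_ap, B_ap] <;> field_simp <;> ring
  rw [or_iff_not_imp_left]
  intro hW
  obtain ⟨x, hx, hx0⟩ := (Submodule.ne_bot_iff _).1 hW
  by_cases h : x 0 ^ 2 + x 1 ^ 2 = 0
  · have h0 : x 0 = 0 := by nlinarith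
    have h1 : x 1 = 0 := by nlinarith
    have := a _ (b _ hx)
    rw [A_ap, B_ap] at this
    refine key _ _ this fun h2 => hx0 ?_
    simp [h0, h1] at h2
    have h3 : x 2 = 0 := by nlinarith [sq_nonneg (x 2), sq_nonneg (x 3)]
    have h4 : x 3 = 0 := by nlinarith [sq_nonneg (x 2), sq_nonneg (x 3)]
    ext i; fin_cases i <;> simp [*]
  · exact key _ _ (A_ap x ▸ a x hx) h

theorem result : ∃ (A B : Module.End ℝ (Fin 4 → ℝ)) (θ η : Fin 2 → ℝ), IsTD A B θ η ∧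
    ∃ f g : LinearMap.BilinForm ℝ (Fin 4 → ℝ), f ≠ 0 ∧ g ≠ 0 ∧
      IsInv A B (fun u v => f u v) ∧ IsInv A B (fun u v => g u v) ∧ ∀ c : ℝ, g ≠ c • f := by
  refine ⟨A, B, ![1, 0], ![1, 0], ⟨tri A B (fun x => by simp [A_ap]) ![1, 0, 0, 0] ![0, 0, 1, 0]
      (fun h => by simpa [A_ap] using congrFun h 0) (fun h => by simpa [A_ap] using congrFun h 2),
    tri B A (fun x => by ext i; fin_cases i <;> simp [B_ap] <;> ring) ![1, 0, 0, 0] ![1, 0, 0, 0]
      (fun h => by simpa [B_ap] using congrFun h 1) (fun h => by simpa [B_ap] using congrFun h 0),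
    irr⟩,
    Matrix.toBilin' !![1, 0, 0, 0; 0, -1, 0, 0; 0, 0, 1, -1; 0, 0, -1, -1],
    Matrix.toBilin' !![0, 1, 0, 0; 1, 0, 0, 0; 0, 0, 1, 1; 0, 0, 1, -1], fun h => ?_, fun h => ?_,
    ⟨fun u v => ?_, fun u v => ?_, fun u v => ?_⟩, ⟨fun u v => ?_, fun u v => ?_, fun u v => ?_⟩,
    fun c h => ?_⟩
  · simpa [Matrix.toBilin'_apply, Fin.sum_univ_four] using
      congrArg (fun f => f ![1, 0, 0, 0] ![1, 0, 0, 0]) h
  · simpa [Matrix.toBilin'_apply, Fin.sum_univ_four] using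
      congrArg (fun f => f ![1, 0, 0, 0] ![0, 1, 0, 0]) h
  iterate 6 simp [Matrix.toBilin'_apply, Fin.sum_univ_four, A_ap, B_ap] <;> ring
  · simpa [Matrix.toBilin'_apply, Fin.sum_univ_four] using
      congrArg (fun f => f ![1, 0, 0, 0] ![0, 1, 0, 0]) h

end Pool.Agent.Results.MP_8ac8bf_al.NotUnique
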